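import Pool.Agent.Y472.G.Defs

/-!
# Closed 3-braids, absolute lower bound of the exponents: statements

The constants do not depend on the number of twist regions.
-/

set_option autoImplicit false

namespace Pool.Agent.Y472

open Finset Filter Topology Metric
open Pool.Agent.W711.HT
open Pool.Agent.Y481 (itI itN Sep wts cw)
open scoped Real

/-! ### Potentials with absolute constants -/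

/-- A potential of `L` variables; only `B'` may depend on `L`. -/
structure PotA (L : ℕ) (R c B p₀ B' : ℝ) (S : (ℕ → ℂ) → ℂ) (D : ℕ → (ℕ → ℂ) → ℂ) : Prop where
  pot : Pot L R c B' (p₀ * L) S D
  hB : 0 < B
  hp : 0 < p₀
  dbd : ∀ ψ ∈ Bx L R, ∀ j < L, ‖D j ψ‖ ≤ B
  diag : ∀ ψ ∈ Bx L R, ∀ j < L, ‖deriv (fun w => D j (Function.update ψ j w)) (ψ j)‖ ≤ B
  off : ∀ ψ ∈ Bx L R, ∀ j < L, ∑ i ∈ (range L).erase j,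
    ‖deriv (fun w => D j (Function.update ψ i w)) (ψ i)‖ ≤ c / 4

/-- CRA: critical points with parameters, absolute constants -/
def S_CRA : Prop := ∀ (R c B p₀ : ℝ), ∃ C M : ℝ, 0 < C ∧ 0 < M ∧
  ∀ (L : ℕ) (B' : ℝ) (S : (ℕ → ℂ) → ℂ) (D : ℕ → (ℕ → ℂ) → ℂ), PotA L R c B p₀ B' S D →
    ∀ a : ℕ → ℤ, (∀ j < L, M ≤ |(a j : ℝ)|) →
      ∃ zz : ℕ → (ℕ → ℂ) → ℕ → ℂ, Crt L R c B' (p₀ * L) C S D a zz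

/-- ELA: elimination, absolute constants -/
def S_ELA : Prop := ∀ (R c B p₀ C : ℝ), 0 < C → ∃ M : ℝ, 0 < M ∧
  ∀ (L : ℕ) (B' : ℝ) (S : (ℕ → ℂ) → ℂ) (D : ℕ → (ℕ → ℂ) → ℂ), PotA L R c B p₀ B' S D →
    ∀ a : ℕ → ℤ, (∀ j < L, M ≤ |(a j : ℝ)|) → ∀ zz : ℕ → (ℕ → ℂ) → ℕ → ℂ,
    Crt L R c B' (p₀ * L) C S D a zz →
    ∀ f : ℕ → (ℕ → ℂ) → ℂ, (∀ N, Sep L (f N)) → SeqLim L (R / 2) f S →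
      ∀ j ≤ L, SeqLim L (R / 2) (fun N => itN (fun _ => R / 8) a N j (f N))
        (fun ψ => Uj S a j (zz j ψ))

/-! ### The ring -/

/-- the potential of the ring for fixed `χ` -/
noncomputable def Sx (s : ℂ → ℂ → ℂ → ℂ) (n : ℕ) (χ : ℂ) (ψ : ℕ → ℂ) : ℂ :=
  ∑ j ∈ range n, s (ψ j) (ψ ((j + 1) % n)) χ

/-- its partial derivatives -/
noncomputable def Dx (s : ℂ → ℂ → ℂ → ℂ) (n : ℕ) (χ : ℂ) (j : ℕ) (ψ : ℕ → ℂ) : ℂ :=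
  deriv (fun w => Sx s n χ (Function.update ψ j w)) (ψ j)

/-- POTA: the ring has a potential with absolute constants -/
def S_POTA : Prop := ∀ (ρ₀ c C : ℝ) (s dl : ℂ → ℂ → ℂ → ℂ), SD3 ρ₀ c C s dl →
  ∃ R c' B p₀ : ℝ, 0 < R ∧ R ≤ ρ₀ ∧ ∀ R' : ℝ, 0 < R' → R' ≤ R → ∀ n : ℕ, 2 ≤ n → ∃ B' : ℝ,
    ∀ χ ∈ Rc R R, PotA n R' c' B p₀ B' (Sx s n χ) (Dx s n χ)

/-- GPA: the critical value as a function of `χ`, absolute constants -/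
def S_GPA : Prop := ∀ (ρ₀ c C : ℝ) (s dl : ℂ → ℂ → ℂ → ℂ), SD3 ρ₀ c C s dl →
  ∃ R c₂ B₂ C' M : ℝ, 0 < R ∧ R ≤ ρ₀ ∧ 0 < c₂ ∧ 0 < B₂ ∧ 0 < C' ∧ 0 < M ∧
  ∀ n : ℕ, 2 ≤ n → ∀ a : ℕ → ℤ, (∀ j < n, M ≤ |(a j : ℝ)|) → ∃ (G : ℂ → ℂ) (z : ℂ → ℕ → ℂ),
    DifferentiableOn ℂ G (Rc R R) ∧
    (∀ χ ∈ Rc R R, G (-χ) = G χ ∧ (deriv (deriv G) χ).re ≤ -(c₂ * n) ∧
      ‖deriv (deriv G) χ‖ ≤ B₂ * n) ∧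
    (∀ χ ∈ Rc R R, (∀ j < n, ‖z χ j‖ ≤ C' / |(a j : ℝ)| ∧ z χ j ∈ Rc (ρ₀ / 2) (ρ₀ / 2) ∧
        0 < (z χ j).im ∧ ‖z χ j‖ ≤ 1 / 10 ∧
      Complex.I * a ((j + 1) % n) * z χ ((j + 1) % n) / (2 * π) + Complex.I +
        deriv (fun w => s (z χ j) w χ) (z χ ((j + 1) % n)) +
        deriv (fun w => s w (z χ (((j + 1) % n + 1) % n)) χ) (z χ ((j + 1) % n)) = 0) ∧
      deriv G χ = ∑ j ∈ range n, deriv (fun w => s (z χ j) (z χ ((j + 1) % n)) w) χ ∧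
      G χ = ∑ j ∈ range n, (Complex.I * a j * z χ j ^ 2 / (4 * π) +
        Complex.I * z χ j + s (z χ j) (z χ ((j + 1) % n)) χ)) ∧
    ∀ m : ℝ, (∀ j < n, m ≤ |(a j : ℝ)|) → 0 < m → ∀ χ ∈ Rc R R,
      ‖G χ - n * s 0 0 χ‖ ≤ C' * n / m

/-! ### The far part -/

/-- the product of a kernel over the ring -/
noncomputable def Wr (K : ℂ → ℂ → ℂ) (n : ℕ) (ψ : ℕ → ℂ) : ℂ :=
  ∏ j ∈ range n, K (ψ j) (ψ ((j + 1) % n))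

/-- the ring potential of a function of two variables -/
noncomputable def Sg (σ : ℂ → ℂ → ℂ) (n : ℕ) (ψ : ℕ → ℂ) : ℂ :=
  ∑ j ∈ range n, σ (ψ j) (ψ ((j + 1) % n))

/-- its partial derivatives -/
noncomputable def Dg (σ : ℂ → ℂ → ℂ) (n : ℕ) (j : ℕ) (ψ : ℕ → ℂ) : ℂ :=
  deriv (fun w => Sg σ n (Function.update ψ j w)) (ψ j)

/-- FRD: the part of the integral with a variable away from the origin, absolute constants -/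
def S_FRD : Prop := ∀ (R c B p₀ C κ τ : ℝ), 0 < C → 0 < κ → 0 < τ → ∃ M : ℝ, 0 < M ∧
  ∀ (n : ℕ) (B' : ℝ) (σ : ℂ → ℂ → ℂ), 2 ≤ n → PotA n R c B p₀ B' (Sg σ n) (Dg σ n) →
  (∀ ψ ∈ Rc R R, ∀ ψ' ∈ Rc R R, ‖σ ψ ψ' - σ 0 ψ'‖ ≤ B * ‖ψ‖ ^ 2 ∧
    ‖σ ψ' ψ - σ ψ' 0‖ ≤ B * ‖ψ‖ ^ 2) →
  ∀ a : ℕ → ℤ, (∀ j < n, M ≤ |(a j : ℝ)|) → ∀ zz : ℕ → (ℕ → ℂ) → ℕ → ℂ,
  Crt n R c B' (p₀ * n) C (Sg σ n) (Dg σ n) a zz →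
  ∀ K : ℕ → ℂ → ℂ → ℂ, (∀ N, ∀ i < n, ∀ j < n, Sep n fun ψ => K N (ψ i) (ψ j)) →
  (∀ ε : ℝ, 0 < ε → ∀ᶠ N : ℕ in atTop, ∀ ψ ∈ Rc (R / 2) (R / 2), ∀ ψ' ∈ Rc (R / 2) (R / 2),
    ‖K N ψ ψ'‖ ≤ Real.exp (N * ((σ ψ ψ').re + ε))) →
  (∀ᶠ N : ℕ in atTop, ∀ ψ ψ' : ℂ, R / 8 ≤ |ψ.re| → |ψ.re| ≤ π → |ψ.im| ≤ 1 / N →
    |ψ'.re| ≤ R / 8 → |ψ'.im| ≤ τ → ‖K N ψ ψ'‖ ≤ Real.exp (N * ((σ 0 ψ').re - κ)) ∧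
      ‖K N ψ' ψ‖ ≤ Real.exp (N * ((σ ψ' 0).re - κ))) →
  (∀ᶠ N : ℕ in atTop, ∀ ψ ψ' : ℂ, R / 8 ≤ |ψ.re| → |ψ.re| ≤ π → |ψ.im| ≤ 1 / N →
    R / 8 ≤ |ψ'.re| → |ψ'.re| ≤ π → |ψ'.im| ≤ 1 / N →
      ‖K N ψ ψ'‖ ≤ Real.exp (N * ((σ 0 0).re - 2 * κ))) →
  ∀ᶠ N : ℕ in atTop, ‖itI a N n (Wr (K N) n) 0 - itN (fun _ => R / 8) a N n (Wr (K N) n) 0‖ ≤
    Real.exp (N * ((Uj (Sg σ n) a n (zz n 0)).re - κ / 2))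

/-! ### The trace -/

/-- the normalised trace -/
noncomputable def XF (ls : List (ℤ × ℤ)) (N : ℕ) (χ : ℂ) : ℂ :=
  (((N : ℂ) / (2 * π)) ^ (2 * ls.length))⁻¹ * Tf N ls χ

/-- the conclusion of XFA: asymptotics of the trace for `χ` near `0` in the upper half plane -/
def XFAc (ρ₀ : ℝ) (s : ℂ → ℂ → ℂ → ℂ) : Prop :=
  ∃ R c₂ B₂ C' M : ℝ, 0 < R ∧ R ≤ 1 ∧ R ≤ ρ₀ ∧ 0 < c₂ ∧ 0 < B₂ ∧ 0 < C' ∧ 0 < M ∧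
  ∀ k : ℕ, 1 ≤ k → ∀ ls : List (ℤ × ℤ), ls.length = k →
    (∀ p ∈ ls, M ≤ |(p.1 : ℝ)| ∧ M ≤ |(p.2 : ℝ)|) → ∃ (G : ℂ → ℂ) (z : ℂ → ℕ → ℂ),
      DifferentiableOn ℂ G (Rc R R) ∧
      (∀ χ ∈ Rc R R, G (-χ) = G χ ∧ (deriv (deriv G) χ).re ≤ -(c₂ * k) ∧
        ‖deriv (deriv G) χ‖ ≤ B₂ * k) ∧
      (∀ K : Set ℂ, IsCompact K → K ⊆ Rc R R → (∀ χ ∈ K, 0 < χ.im) → MW (XF ls) G K) ∧
      (∀ χ ∈ Rc R R, (∀ j < 2 * k, z χ j ∈ Rc ρ₀ ρ₀ ∧ 0 < (z χ j).im ∧ ‖z χ j‖ ≤ 1 / 10 ∧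
        Complex.I * cw ls ((j + 1) % (2 * k)) * z χ ((j + 1) % (2 * k)) / (2 * π) + Complex.I +
          deriv (fun w => s (z χ j) w χ) (z χ ((j + 1) % (2 * k))) +
          deriv (fun w => s w (z χ (((j + 1) % (2 * k) + 1) % (2 * k))) χ)
            (z χ ((j + 1) % (2 * k))) = 0) ∧
        deriv G χ = ∑ j ∈ range (2 * k), deriv (fun w => s (z χ j) (z χ ((j + 1) % (2 * k))) w) χ ∧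
        G χ = ∑ j ∈ range (2 * k), (Complex.I * cw ls j * z χ j ^ 2 / (4 * π) +
          Complex.I * z χ j + s (z χ j) (z χ ((j + 1) % (2 * k))) χ)) ∧
      ∀ m : ℝ, (∀ p ∈ ls, m ≤ |(p.1 : ℝ)| ∧ m ≤ |(p.2 : ℝ)|) → 0 < m → ∀ χ ∈ Rc R R,
        ‖G χ - 2 * k * s 0 0 χ‖ ≤ C' * k / m

/-- XFA -/
def S_XFA : Prop := S_POTA → S_CRA → S_ELA → S_FRD → S_GPA → S_KFF → KRZc → S_KB3 → S_MWK3 →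
  ∀ (ρ₀ c C : ℝ) (s dl : ℂ → ℂ → ℂ → ℂ), SD3 ρ₀ c C s dl → XFAc ρ₀ s

/-- MAINA: the growth rate for many twist regions, absolute lower bound of the exponents -/
def S_MAINA : Prop := ∃ (ρ₀ c C : ℝ) (s dl : ℂ → ℂ → ℂ → ℂ), SD3 ρ₀ c C s dl ∧
  ∃ (K : ℕ) (M : ℝ), ∀ k : ℕ, K ≤ k → ∀ (ls : List (ℤ × ℤ)) (m : ℤ), ls.length = k →
    (∀ p ∈ ls, M ≤ |(p.1 : ℝ)| ∧ M ≤ |(p.2 : ℝ)|) →
    ∃ (z : ℕ → ℂ) (χ : ℂ), ‖χ‖ < 1 / 10 ∧ RCrit3 s ρ₀ (2 * k) (cw ls) m z χ ∧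
      Tendsto (fun N : ℕ => Real.log ‖Pool.Agent.H550R3.Jones.cjones N 2 (ftw m ++ bw ls) (vN N)‖ / N)
        atTop (𝓝 (RVal3 s (2 * k) (cw ls) m z χ).re)

end Pool.Agent.Y472
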