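import Pool.Agent.Y472.F.Growth
import Pool.Agent.Y472.H.Defs

/-!
# Closed 3-braids: from growth rates with various constants to an absolute constant
-/

set_option autoImplicit false

namespace Pool.Agent.Y472.H

open Finset Filter Topology Metric
open Pool.Agent.W711.HT
open Pool.Agent.W719.AR (Fl)
open Pool.Agent.Y472 Pool.Agent.Y482.Chi
open Pool.Agent.Y481 (cw)
open scoped Real

/-- the growth rate is the volume, for one braid -/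
def Gr (ls : List (ℤ × ℤ)) (m : ℤ) : Prop :=
  ∃ V : ℝ, IsGreatest {W : ℝ | ∃ f g F G : ℕ → Fl, ChiAng (2 * ls.length) (cw ls) m f g F G ∧
      chiVol (2 * ls.length) f g F G = W} V ∧
    Tendsto (fun N : ℕ => 2 * π *
      (Real.log ‖Pool.Agent.H550R3.Jones.cjones N 2 (ftw m ++ bw ls) (vN N)‖ / N)) atTop (𝓝 V)

/-- all exponents are at least `M` -/
def Lg' (M : ℝ) (ls : List (ℤ × ℤ)) : Prop := ∀ p ∈ ls, M ≤ |(p.1 : ℝ)| ∧ M ≤ |(p.2 : ℝ)|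

theorem Lg'.mono {M M' : ℝ} {ls : List (ℤ × ℤ)} (h : Lg' M' ls) (hM : M ≤ M') : Lg' M ls :=
  fun p hp => ⟨hM.trans (h p hp).1, hM.trans (h p hp).2⟩

/-- one constant for finitely many values of a parameter -/
theorem fin_ex {P : ℕ → ℝ → Prop} (h0 : ∀ n, ∃ M, P n M) (hm : ∀ n M M', M ≤ M' → P n M → P n M')
    (n : ℕ) : ∃ M, ∀ i < n, P i M := by
  induction n with
  | zero => exact ⟨0, fun i hi => absurd hi (Nat.not_lt_zero _)⟩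
  | succ n ih =>
    obtain ⟨M1, h1⟩ := ih
    obtain ⟨M2, h2⟩ := h0 n
    refine ⟨max M1 M2, fun i hi => ?_⟩
    rcases Nat.lt_succ_iff_lt_or_eq.1 hi with h | h
    · exact hm _ _ _ (le_max_left _ _) (h1 i h)
    · rw [h]
      exact hm _ _ _ (le_max_right _ _) h2

/-- a constant depending on `k`, all numbers `m ≥ 0` -/
theorem growthK (hZ : ∀ (k m : ℕ), 1 ≤ k → ¬ (k = 1 ∧ m = 0) → ∃ M : ℝ, ∀ ls : List (ℤ × ℤ),
    ls.length = k → Lg' M ls → Gr ls m) (k : ℕ) (hk : 1 ≤ k) :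
    ∃ M : ℝ, ∀ (ls : List (ℤ × ℤ)) (m : ℕ), ls.length = k → Lg' M ls → ¬ (k = 1 ∧ m = 0) →
      Gr ls m := by
  obtain ⟨M1, h1⟩ := Pool.Agent.Y472.F.growth k hk
  obtain ⟨M2, h2⟩ := fin_ex (P := fun m M => ¬ (k = 1 ∧ m = 0) → ∀ ls : List (ℤ × ℤ),
    ls.length = k → Lg' M ls → Gr ls m) (by
      intro m
      by_cases h : k = 1 ∧ m = 0
      · exact ⟨0, fun h' => absurd h h'⟩
      · obtain ⟨M, hM⟩ := hZ k m hk h
        exact ⟨M, fun _ => hM⟩)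
    (fun m M M' hMM' h h3 ls hl hls => h h3 ls hl (hls.mono hMM')) ⌈M1⌉₊
  refine ⟨max M1 M2, fun ls m hl hls hkm => ?_⟩
  by_cases hm : m < ⌈M1⌉₊
  · exact h2 m hm hkm ls hl (hls.mono (le_max_right _ _))
  · have h3 : M1 ≤ |((m : ℤ) : ℝ)| := by
      have h4 := Nat.le_ceil M1
      have h5 : (⌈M1⌉₊ : ℝ) ≤ m := by exact_mod_cast not_lt.1 hm
      have h6 : ((m : ℤ) : ℝ) = (m : ℝ) := by push_cast; rfl
      rw [h6]
      exact (h4.trans h5).trans (le_abs_self _)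
    obtain ⟨V, h7, h8⟩ := h1 ls m hl (hls.mono (le_max_left _ _)) h3
    refine ⟨V, ?_, h8⟩
    rw [hl]
    exact h7

/-- an absolute constant -/
theorem growthAbs (hZ : ∀ (k m : ℕ), 1 ≤ k → ¬ (k = 1 ∧ m = 0) → ∃ M : ℝ, ∀ ls : List (ℤ × ℤ),
    ls.length = k → Lg' M ls → Gr ls m)
    (hA : ∃ (K : ℕ) (M : ℝ), ∀ k : ℕ, K ≤ k → 1 ≤ k → ∀ (ls : List (ℤ × ℤ)) (m : ℤ),
      ls.length = k → Lg' M ls → Gr ls m) :
    ∃ M : ℝ, ∀ (ls : List (ℤ × ℤ)) (m : ℕ), ls ≠ [] → ¬ (ls.length = 1 ∧ m = 0) → Lg' M ls →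
      Gr ls m := by
  obtain ⟨K, M1, h1⟩ := hA
  obtain ⟨M2, h2⟩ := fin_ex (P := fun k M => 1 ≤ k → ∀ (ls : List (ℤ × ℤ)) (m : ℕ),
    ls.length = k → Lg' M ls → ¬ (k = 1 ∧ m = 0) → Gr ls m) (by
      intro k
      by_cases h : 1 ≤ k
      · obtain ⟨M, hM⟩ := growthK hZ k h
        exact ⟨M, fun _ => hM⟩
      · exact ⟨0, fun h' => absurd h' h⟩)
    (fun k M M' hMM' h h3 ls m hl hls hkm => h h3 ls m hl (hls.mono hMM') hkm) K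
  refine ⟨max M1 M2, fun ls m hne hkm hls => ?_⟩
  have hk : 1 ≤ ls.length := List.length_pos_iff.2 hne
  by_cases hK : K ≤ ls.length
  · exact h1 _ hK hk ls m rfl (hls.mono (le_max_left _ _))
  · exact h2 _ (not_le.1 hK) hk ls m rfl (hls.mono (le_max_right _ _)) hkm

/-- the growth rate from `S_MAINA` -/
theorem growthA_of (h : S_MAINA) :
    ∃ (K : ℕ) (M : ℝ), ∀ k : ℕ, K ≤ k → 1 ≤ k → ∀ (ls : List (ℤ × ℤ)) (m : ℤ),
      ls.length = k → Lg' M ls → Gr ls m := by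
  obtain ⟨ρ₀, c, C, s, dl, hS, K, M, H⟩ := h
  refine ⟨K, M, fun k hK hk ls m hl hls => ?_⟩
  obtain ⟨z, χ, hχ, hcr, hlim⟩ := H k hK ls m hl hls
  unfold Gr
  rw [hl]
  exact ⟨_, geox3 hS (by omega) hcr hχ, hlim.const_mul (2 * π)⟩

/-- the growth rate from `S_MAINZ` and the geometry near `χ₀` -/
theorem growthZ_of (h : S_MAINZ)
    (hG : ∀ χ₀ : ℂ, Zr χ₀ → ∃ ε : ℝ, 0 < ε ∧ ∀ (ρ₀ c C : ℝ), SDZ χ₀ ρ₀ c C szz dzz →
      ∀ (n : ℕ) (a : ℕ → ℤ) (m : ℤ) (z : ℕ → ℂ) (χ : ℂ), 1 ≤ n → RCritZ szz χ₀ ρ₀ n a m z χ →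
        (∀ j < n, ‖z j‖ ≤ ε) → ‖χ - χ₀‖ ≤ ε →
        IsGreatest {W : ℝ | ∃ f g F G : ℕ → Fl, ChiAng n a m f g F G ∧ chiVol n f g F G = W}
          (2 * π * (RVal3 szz n a m z χ).re)) :
    ∀ (k m : ℕ), 1 ≤ k → ¬ (k = 1 ∧ m = 0) → ∃ M : ℝ, ∀ ls : List (ℤ × ℤ),
      ls.length = k → Lg' M ls → Gr ls m := by
  intro k m hk hkm
  obtain ⟨χ₀, ρ₀, c, C, hZ, hS, H⟩ := h k m hk (by positivity) (by
    rintro ⟨h1, h2⟩
    exact hkm ⟨h1, by exact_mod_cast h2⟩)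
  obtain ⟨ε, hε, hG⟩ := hG χ₀ hZ
  obtain ⟨M, hM⟩ := H ε hε
  refine ⟨M, fun ls hl hls => ?_⟩
  obtain ⟨z, χ, hcr, hz, hχ, hlim⟩ := hM ls hl hls
  unfold Gr
  rw [hl]
  exact ⟨_, hG _ _ _ hS _ _ _ _ _ (by omega) hcr hz hχ, hlim.const_mul (2 * π)⟩

end Pool.Agent.Y472.H
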