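import Pool.Agent.Y472.A.Final
import Pool.Agent.Y472.H.Growth5
import Pool.Agent.Y472.H.Ela
import Pool.Agent.Y290.CH.MainA
import Pool.Agent.Y809.CH.Xfa
import Pool.Agent.Y484.CH.PotA
import Pool.Agent.Y68.CH.CRA
import Pool.Agent.Y86.CH.FRD
import Pool.Agent.Y508.CH.Gpa
import Pool.Agent.Y68.CG.KBZ
import Pool.Agent.Y238.CG.PF
import Pool.Agent.Y125.CG.Cnb
import Pool.Agent.Y991.CG.LMI
import Pool.Agent.Y710.CG.S0P
import Pool.Agent.Y691.CG.KFF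
import Pool.Agent.Y691.CG.TFB
import Pool.Agent.Y37.CG.Krz
import Pool.Agent.Y280.CG.Faz
import Pool.Agent.Y563.CG.Ciz
import Pool.Agent.Y590.CB.KF
import Pool.Agent.Y46.CB.TBY
import Pool.Agent.Y317.CB.Rhoy
import Pool.Agent.Y105.CB.Rho
import Pool.Agent.Y288.CB.TB0
import Pool.Agent.Y288.CB.KB3
import Pool.Agent.Y967.CB.Mwk3
import Pool.Agent.Y641.CB.SD3
import Pool.Agent.Y79.CG.Rhot2
import Pool.Agent.Y79.CG.Thz
import Pool.Agent.Y252.CG.Rhoa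
import Pool.Agent.Y252.CG.Kaz
import Pool.Agent.Y761.CG.Csz

/-!
# Closed 3-braids, many twist regions, absolute constant: assembly of the growth rate
-/

set_option autoImplicit false

namespace Pool.Agent.Y472.H

open Finset Filter Topology Metric
open Pool.Agent.W711.HT
open Pool.Agent.Y472 Pool.Agent.Y421.CG
open Pool.Agent.Y481 (cw)
open scoped Real

theorem mainau : S_MAINA := by
  have hRHO : S_RHO := Pool.Agent.Y105.CB.rho
  have hTB0 : S_TB0 := Pool.Agent.Y288.CB.tb0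
  have hKB3 : S_KB3 := Pool.Agent.Y288.CB.kb3 hTB0 hRHO
  have hRY : S_RHOY := Pool.Agent.Y317.CB.rhoy
  have hTY : S_TBY := Pool.Agent.Y46.CB.tby
  have hS0 : S_S0P := Pool.Agent.Y710.CG.s0p
  have hKB : KBZc := Pool.Agent.Y68.CG.kbz Pool.Agent.Y238.CG.pf Pool.Agent.Y125.CG.cnb
    Pool.Agent.Y991.CG.lmi
  have hKR : KRZc := Pool.Agent.Y37.CG.krz hTB0 hTY hRHO hRY
  obtain ⟨ρ₀, c, C, s, dl, hS⟩ := Pool.Agent.Y641.CB.sd3
  have hb := Pool.Agent.Y761.CG.bet_ge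
  exact Pool.Agent.Y290.CH.maina (by linarith) (fun N ls m hN hl => exact_formula N ls m hN hl)
    (fazc_of Pool.Agent.Y280.CG.faz hKB hKR
      (Pool.Agent.Y252.CG.kaz hTB0 hRHO Pool.Agent.Y252.CG.rhoa) Pool.Agent.Y691.CG.tfb
      Pool.Agent.Y691.CG.kff Pool.Agent.Y590.CB.kf hS0)
    (thzc_of Pool.Agent.Y79.CG.thz hTB0 hRHO Pool.Agent.Y79.CG.rhot)
    Pool.Agent.Y563.CG.ciz hS0 hS
    (Pool.Agent.Y809.CH.xfa Pool.Agent.Y484.CH.pota Pool.Agent.Y68.CH.cra ela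
      Pool.Agent.Y86.CH.frd Pool.Agent.Y508.CH.gpa Pool.Agent.Y691.CG.kff hKR hKB3
      Pool.Agent.Y967.CB.MW.mwk3 ρ₀ c C s dl hS)

/-- the growth rate for many twist regions, absolute constant -/
theorem growthA : ∃ (K : ℕ) (M : ℝ), ∀ k : ℕ, K ≤ k → 1 ≤ k → ∀ (ls : List (ℤ × ℤ)) (m : ℤ),
    ls.length = k → Lg' M ls → Gr ls m := growthA_of mainau

end Pool.Agent.Y472.H
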